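import Pool.Agent.helper58.CRO.SpecA

open scoped Manifold ContDiff Topology ENNReal
open MeasureTheory Set

noncomputable section

namespace Pool.Agent.CRO

/-- the Riesz isomorphism as a real continuous linear map -/
def HVC_T (n : ℕ) : StrongDual ℝ (En n) →L[ℝ] En n where
  toFun L := (InnerProductSpace.toDual ℝ (En n)).symm L
  map_add' a b := map_add _ a b
  map_smul' c a := by
    rw [map_smulₛₗ]
    simp
  cont := (InnerProductSpace.toDual ℝ (En n)).symm.continuous

/-- the linear map which sends the derivative to the Hamiltonian vector -/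
def HVC_G (n : ℕ) : StrongDual ℝ (PS n) →L[ℝ] PS n :=
  ((HVC_T n).comp ((ContinuousLinearMap.compL ℝ (En n) (PS n) ℝ).flip
      (ContinuousLinearMap.inr ℝ (En n) (En n)))).prod
    (-((HVC_T n).comp ((ContinuousLinearMap.compL ℝ (En n) (PS n) ℝ).flip
      (ContinuousLinearMap.inl ℝ (En n) (En n)))))

theorem HVC_eq (n : ℕ) (H : PS n → ℝ) : hvf H = HVC_G n ∘ fderiv ℝ H := by
  funext z
  rfl

theorem HVC : HVC_stmt := by
  intro n H hH hc
  rw [HVC_eq]
  constructor
  · exact (HVC_G n).contDiff.comp (hH.fderiv_right (by simp))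
  · exact (hc.fderiv (𝕜 := ℝ)).comp_left (map_zero _)

end Pool.Agent.CRO
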