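import Pool.Agent.helper58.CRO.SpecB

open scoped Manifold ContDiff Topology ENNReal
open MeasureTheory Set

noncomputable section

namespace Pool.Agent.CRO

theorem INJ (h1 : HVA_stmt) (h2 : NRG_stmt) : INJ_stmt := by
  intro n r0 r1 L 𝒢 H Φ hΦ hE z z' t ht htL hz hz' hzz hs hs' hend
  have hr : r1 < r0 := hΦ.r1lt
  have h0 : Φ 0 z = z := hΦ.zero z
  have h0' : Φ 0 z' = z' := hΦ.zero z'
  have key : ∀ y : PS n, nrm2 𝒢 y < 1 → (∀ s ∈ Icc 0 t, ‖(Φ s y).1‖ < r1) →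
      ∀ s ∈ Icc 0 t, ‖(Φ s y).1‖ < r0 ∧
        HasDerivAt (fun s => Φ s y) (hvf (ham 𝒢) (Φ s y)) s := by
    intro y hy hys s hst
    have h3 : nrm2 𝒢 (Φ s y) = nrm2 𝒢 y := by
      refine h2 n r0 r1 𝒢 H Φ hΦ y s hy fun u hu => ?_
      rw [uIcc_of_le hst.1] at hu
      exact hys u ⟨hu.1, hu.2.trans hst.2⟩
    obtain ⟨_, h4, _⟩ := h1 n r0 r1 𝒢 H Φ hΦ (Φ s y) (hys s hst) (by rw [h3]; linarith)
    refine ⟨(hys s hst).trans hr, ?_⟩
    rw [← h4]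
    exact hΦ.ode y s
  have hz0 : ‖z.1‖ < r0 := by
    have := hs 0 ⟨le_refl _, ht.le⟩
    rw [h0] at this
    exact this.trans hr
  obtain ⟨Ex, D, _, hinj, _, hprop⟩ := hE z.1 hz0
  obtain ⟨a1, a2⟩ := hprop (fun s => Φ s z) t ht.le htL (by show (Φ 0 z).1 = z.1; rw [h0])
    (by show nrm2 𝒢 (Φ 0 z) < 1; rw [h0]; exact hz) (key z hz hs)
  obtain ⟨b1, b2⟩ := hprop (fun s => Φ s z') t ht.le htL (by show (Φ 0 z').1 = z.1; rw [h0', hzz])
    (by show nrm2 𝒢 (Φ 0 z') < 1; rw [h0']; exact hz') (key z' hz' hs')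
  have a2' : (Φ t z).1 = Ex (t • z.2) := by
    have : (Φ t z).1 = Ex (t • (Φ 0 z).2) := a2
    rw [h0] at this
    exact this
  have b2' : (Φ t z').1 = Ex (t • z'.2) := by
    have : (Φ t z').1 = Ex (t • (Φ 0 z').2) := b2
    rw [h0'] at this
    exact this
  have a1' : t • z.2 ∈ D := by
    have : t • (Φ 0 z).2 ∈ D := a1
    rw [h0] at this
    exact this
  have b1' : t • z'.2 ∈ D := by
    have : t • (Φ 0 z').2 ∈ D := b1
    rw [h0'] at this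
    exact this
  have h5 : t • z.2 = t • z'.2 := hinj a1' b1' (by rw [← a2', ← b2', hend])
  exact Prod.ext hzz (smul_right_injective _ ht.ne' h5)

end Pool.Agent.CRO
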